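import Pool.Agent.Lib.GSR3.Final
import Mathlib.Combinatorics.SimpleGraph.Sum

/-!
# From trees to forests
-/

set_option autoImplicit false

namespace Pool.Agent.Lib.GSR3

open Finset Classical
open Pool.Agent.Lib.FracGS (nb wnb TAdj mem_nb nb_subset nb_mono)

/-- Graphs without induced `F` and with bounded clique number are small. -/
def FGS {W : Type} (F : SimpleGraph W) : Prop :=
  ∀ k : ℕ, ∃ c : ℝ, 1 ≤ c ∧ ∀ (V : Type) [Fintype V] (G : SimpleGraph V), G.CliqueFree k →
    IsEmpty (F ↪g G) → Small G Finset.univ c

lemma FGS.of_embedding {W W' : Type} {F : SimpleGraph W} {F' : SimpleGraph W'} (e : F ↪g F')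
    (h : FGS F') : FGS F := by
  intro k
  obtain ⟨c, hc, h⟩ := h k
  refine ⟨c, hc, ?_⟩
  intro V _ G hG hF
  exact h V G hG ⟨fun φ => hF.false (e.trans φ)⟩

/-- Unions of small sets. -/
lemma small_biUnion {V ι : Type} {G : SimpleGraph V} {c : ℝ} (hc : 0 ≤ c) (S : ι → Finset V)
    (s : Finset ι) (h : ∀ i ∈ s, Small G (S i) c) : Small G (s.biUnion S) (s.card * c) := by
  induction s using Finset.induction_on with
  | empty =>
    simp only [Finset.biUnion_empty, Finset.card_empty, Nat.cast_zero, zero_mul]
    exact small_empty le_rfl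
  | insert i s hi ih =>
    rw [Finset.biUnion_insert, Finset.card_insert_of_notMem hi]
    have h1 := h i (Finset.mem_insert_self i s)
    have h2 := ih fun j hj => h j (Finset.mem_insert_of_mem hj)
    have h3 := h1.union h2 hc (by positivity)
    refine h3.mono_const (le_of_eq ?_)
    push_cast
    ring

/-- The disjoint union of two patterns. -/
lemma FGS.sum {W1 W2 : Type} [Fintype W1] [Fintype W2] {F1 : SimpleGraph W1} {F2 : SimpleGraph W2}
    (h1 : FGS F1) (h2 : FGS F2) : FGS (F1 ⊕g F2) := by
  intro k
  induction k with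
  | zero =>
    refine ⟨1, le_rfl, ?_⟩
    intro V _ G hG _
    exact absurd (by simp : G.IsNClique 0 ∅) (hG ∅)
  | succ k ih =>
    obtain ⟨c, hc, hind⟩ := ih
    obtain ⟨c1, hc1, h1⟩ := h1 (k + 1)
    obtain ⟨c2, hc2, h2⟩ := h2 (k + 1)
    refine ⟨c1 + (Fintype.card W1 * (c + 1) + c2), ?_, ?_⟩
    · have : (0 : ℝ) ≤ Fintype.card W1 * (c + 1) := by positivity
      linarith
    intro V _ G hG hF
    have hpos : (0 : ℝ) ≤ Fintype.card W1 * (c + 1) := by positivity
    by_cases hno : IsEmpty (F1 ↪g G)
    · exact (h1 V G hG hno).mono_const (by linarith)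
    rw [not_isEmpty_iff] at hno
    obtain ⟨φ⟩ := hno
    -- the neighbourhood of the copy
    set Z : Finset V := (Finset.univ : Finset W1).biUnion
      (fun w => nb G Finset.univ (φ w) ∪ {φ w}) with hZ
    have hZs : Small G Z (Fintype.card W1 * (c + 1)) := by
      rw [hZ, ← Finset.card_univ]
      refine small_biUnion (by linarith) _ _ fun w _ => ?_
      refine Small.union ?_ ?_ (by linarith) zero_le_one
      · refine small_of_induce G _ c (hind _ _ (cliqueFree_nb G k hG (φ w)) ?_)
        refine ⟨fun ψ => hF.false (ψ.trans (SimpleGraph.Embedding.induce _))⟩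
      · refine Stab.small ?_ le_rfl
        intro u hu v hv huv
        rw [Finset.mem_singleton] at hu hv
        rw [hu, hv] at huv
        exact huv.ne rfl
    -- the rest has no copy of the second pattern
    have hR : Small G (Finset.univ \ Z) c2 := by
      refine small_of_induce G _ c2 (h2 _ _ (hG.comap ⟨(SimpleGraph.Embedding.induce _).toCopy⟩) ?_)
      refine ⟨fun ψ => hF.false ?_⟩
      have hfar : ∀ w u, φ w ≠ (ψ u).1 ∧ ¬ G.Adj (φ w) (ψ u).1 := by
        intro w u
        have h3 : (ψ u).1 ∉ Z := (Finset.mem_sdiff.mp (ψ u).2).2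
        refine ⟨fun h => h3 (Finset.mem_biUnion.mpr ⟨w, Finset.mem_univ w, ?_⟩),
          fun h => h3 (Finset.mem_biUnion.mpr ⟨w, Finset.mem_univ w, ?_⟩)⟩
        · rw [Finset.mem_union, Finset.mem_singleton]
          exact Or.inr h.symm
        · rw [Finset.mem_union, mem_nb]
          exact Or.inl ⟨Finset.mem_univ _, h⟩
      refine ⟨⟨Sum.elim φ (fun u => (ψ u).1), ?_⟩, ?_⟩
      · rintro (a | a) (b | b) hab
        · exact congrArg _ (φ.injective hab)
        · exact absurd hab (hfar a b).1
        · exact absurd hab.symm (hfar b a).1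
        · exact congrArg _ (ψ.injective (Subtype.ext hab))
      · rintro (a | a) (b | b)
        · show G.Adj (φ a) (φ b) ↔ _
          rw [SimpleGraph.sum_adj_inl]
          exact φ.map_adj_iff
        · show G.Adj (φ a) (ψ b).1 ↔ _
          exact iff_of_false (hfar a b).2 (by simp)
        · show G.Adj (ψ a).1 (φ b) ↔ _
          exact iff_of_false (fun h => (hfar b a).2 h.symm) (by simp)
        · show G.Adj (ψ a).1 (ψ b).1 ↔ _
          rw [SimpleGraph.sum_adj_inr]
          exact ψ.map_adj_iff
    have h3 := hZs.union hR hpos (by linarith)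
    rw [Finset.union_sdiff_of_subset (Finset.subset_univ Z)] at h3
    exact h3.mono_const (by linarith)

/-- Every component has radius at most `d`. -/
def CompRad {W : Type} (F : SimpleGraph W) (d : ℕ) : Prop :=
  ∀ v, ∃ r, ∀ u, F.Reachable v u → ∃ p : F.Walk r u, p.length ≤ d

lemma length_induce {W : Type} {F : SimpleGraph W} {s : Set W} {u v : W} (p : F.Walk u v)
    (h : ∀ x ∈ p.support, x ∈ s) : (p.induce s h).length = p.length := by
  induction p with
  | nil => rfl
  | cons hadj p ih =>
    rw [SimpleGraph.Walk.induce_cons, SimpleGraph.Walk.length_cons, SimpleGraph.Walk.length_cons,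
      ih]

/-- A forest is an induced subgraph of the disjoint union of one component and the rest. -/
lemma embeds_sum {W : Type} (F : SimpleGraph W) (v : W) :
    Nonempty (F ↪g (F.induce {u | F.Reachable v u}) ⊕g (F.induce {u | ¬ F.Reachable v u})) := by
  refine ⟨⟨⟨fun u => if h : F.Reachable v u then Sum.inl ⟨u, h⟩ else Sum.inr ⟨u, h⟩, ?_⟩, ?_⟩⟩
  · intro a b hab
    simp only at hab
    split_ifs at hab with h1 h2 h2
    · simpa using hab
    · simpa using hab
  · intro a b
    simp only [Function.Embedding.coeFn_mk]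
    by_cases h1 : F.Reachable v a <;> by_cases h2 : F.Reachable v b
    · rw [dif_pos h1, dif_pos h2, SimpleGraph.sum_adj_inl]
      exact Iff.rfl
    · rw [dif_pos h1, dif_neg h2]
      refine iff_of_false (by simp) fun h => h2 (h1.trans h.reachable)
    · rw [dif_neg h1, dif_pos h2]
      refine iff_of_false (by simp) fun h => h1 (h2.trans h.symm.reachable)
    · rw [dif_neg h1, dif_neg h2, SimpleGraph.sum_adj_inr]
      exact Iff.rfl

/-- From trees to forests. -/
theorem forest (d : ℕ)
    (hd : ∀ (W : Type) [Fintype W] (T : SimpleGraph W) (r : W), T.IsTree →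
      (∀ v, T.dist r v ≤ d) → FGS T) (n : ℕ) :
    ∀ (W : Type) [Fintype W] (F : SimpleGraph W), Fintype.card W = n → F.IsAcyclic →
      CompRad F d → FGS F := by
  induction n using Nat.strong_induction_on with
  | _ n ih =>
    intro W _ F hcard hF hrad
    rcases isEmpty_or_nonempty W with hW | ⟨⟨v⟩⟩
    · intro k
      refine ⟨1, le_rfl, ?_⟩
      intro V _ G _ hno
      refine (hno.false ?_).elim
      exact ⟨⟨fun w => (hW.false w).elim, fun w => (hW.false w).elim⟩,
        fun {w} => (hW.false w).elim⟩
    obtain ⟨e⟩ := embeds_sum F v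
    refine FGS.of_embedding e (FGS.sum ?_ ?_)
    · -- the component
      obtain ⟨r, hr⟩ := hrad v
      have hvr : F.Reachable v r := by
        obtain ⟨p, -⟩ := hr v (SimpleGraph.Reachable.refl v)
        exact p.reachable.symm
      have hwalk : ∀ u : {u | F.Reachable v u},
          ∃ p : (F.induce {u | F.Reachable v u}).Walk ⟨r, hvr⟩ u, p.length ≤ d := by
        intro u
        obtain ⟨p, hp⟩ := hr u.1 u.2
        have hsup : ∀ x ∈ p.support, x ∈ {u | F.Reachable v u} := fun x hx =>
          hvr.trans (p.takeUntil x hx).reachable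
        exact ⟨p.induce _ hsup, by rw [length_induce]; exact hp⟩
      refine hd _ _ ⟨r, hvr⟩ ⟨?_, hF.induce _⟩ ?_
      · have : Nonempty {u | F.Reachable v u} := ⟨⟨r, hvr⟩⟩
        refine SimpleGraph.Connected.mk fun a b => ?_
        obtain ⟨p, -⟩ := hwalk a
        obtain ⟨q, -⟩ := hwalk b
        exact p.reachable.symm.trans q.reachable
      · intro u
        obtain ⟨p, hp⟩ := hwalk u
        exact (SimpleGraph.dist_le p).trans hp
    · -- the rest
      refine ih _ ?_ _ _ rfl (hF.induce _) ?_
      · rw [← hcard]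
        refine Fintype.card_lt_of_injective_of_notMem (fun u : {u | ¬ F.Reachable v u} => u.1)
          Subtype.val_injective (b := v) ?_
        rintro ⟨u, hu⟩
        have hu' : u.1 = v := hu
        exact u.2 (by rw [hu'])
      · rintro ⟨a, ha⟩
        obtain ⟨r, hr⟩ := hrad a
        have har : F.Reachable a r := by
          obtain ⟨p, -⟩ := hr a (SimpleGraph.Reachable.refl a)
          exact p.reachable.symm
        refine ⟨⟨r, fun h => ha (h.trans har.symm)⟩, ?_⟩
        rintro ⟨u, hu⟩ hau
        have hau' : F.Reachable a u := by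
          obtain ⟨p⟩ := hau
          exact ⟨p.map (SimpleGraph.Embedding.induce _).toHom⟩
        obtain ⟨p, hp⟩ := hr u hau'
        have hsup : ∀ x ∈ p.support, x ∈ {u | ¬ F.Reachable v u} := fun x hx h =>
          ha (h.trans ((p.takeUntil x hx).reachable.symm.trans har.symm))
        exact ⟨p.induce _ hsup, by rw [length_induce]; exact hp⟩

end Pool.Agent.Lib.GSR3
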