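import Pool.Agent.Lib.GSR3.Defs

/-!
# Small sets
-/

set_option autoImplicit false

namespace Pool.Agent.Lib.GSR3

open Finset Classical
open Pool.Agent.Lib.FracGS (nb wnb TAdj mem_nb nb_subset nb_mono)

variable {V : Type} {G : SimpleGraph V} {A B I : Finset V} {a b c κ : ℝ}

lemma Stab.mono (h : Stab G B) (hA : A ⊆ B) : Stab G A :=
  fun u hu v hv => h u (hA hu) v (hA hv)

lemma stab_empty : Stab G ∅ := by
  intro u hu
  simp at hu

/-- It is enough to consider weights supported on the set. -/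
lemma Small.mono_set (h : Small G B c) (hA : A ⊆ B) : Small G A c := by
  intro w hw
  obtain ⟨I, hI, hS, hle⟩ := h (fun v => if v ∈ A then w v else 0) (fun v => by
    show 0 ≤ if v ∈ A then w v else 0
    split_ifs
    · exact hw v
    · exact le_rfl)
  refine ⟨I ∩ A, Finset.inter_subset_right, hS.mono Finset.inter_subset_left, ?_⟩
  simp only [← Finset.sum_filter] at hle
  rw [show B.filter (fun v => v ∈ A) = A by
      ext v
      simp only [Finset.mem_filter]
      exact ⟨fun h => h.2, fun h => ⟨hA h, h⟩⟩,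
    show I.filter (fun v => v ∈ A) = I ∩ A by
      ext v
      simp] at hle
  exact hle

lemma Small.mono_const (h : Small G A a) (hab : a ≤ b) : Small G A b := by
  intro w hw
  obtain ⟨I, hI, hS, hle⟩ := h w hw
  exact ⟨I, hI, hS, hle.trans (mul_le_mul_of_nonneg_right hab
    (Finset.sum_nonneg fun v _ => hw v))⟩

lemma Small.union (h1 : Small G A a) (h2 : Small G B b) (ha : 0 ≤ a) (hb : 0 ≤ b) :
    Small G (A ∪ B) (a + b) := by
  intro w hw
  obtain ⟨I, hI, hIS, hIle⟩ := h1 w hw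
  obtain ⟨J, hJ, hJS, hJle⟩ := h2 w hw
  have hsum : ∑ v ∈ A ∪ B, w v ≤ ∑ v ∈ A, w v + ∑ v ∈ B, w v := by
    rw [← Finset.sum_union_inter]
    have := Finset.sum_nonneg (s := A ∩ B) fun v _ => hw v
    linarith
  rcases le_total (∑ v ∈ I, w v) (∑ v ∈ J, w v) with h | h
  · refine ⟨J, hJ.trans Finset.subset_union_right, hJS, ?_⟩
    have := mul_le_mul_of_nonneg_left h ha
    linarith
  · refine ⟨I, hI.trans Finset.subset_union_left, hIS, ?_⟩
    have := mul_le_mul_of_nonneg_left h hb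
    linarith

lemma small_empty (hc : 0 ≤ c) : Small G (∅ : Finset V) c := by
  intro w _
  refine ⟨∅, Finset.empty_subset _, stab_empty, ?_⟩
  simp

lemma Stab.small (h : Stab G A) (hc : 1 ≤ c) : Small G A c := by
  intro w hw
  refine ⟨A, subset_rfl, h, ?_⟩
  have := Finset.sum_nonneg (s := A) fun v _ => hw v
  nlinarith

/-- Averaging: if random sets `S ω` are small and contain every `a ∈ A` with probability at least
`δ` then `A` is small. -/
lemma small_of_average {Ω : Type} [Fintype Ω] (p : Ω → ℝ) (hp : ∀ ω, 0 ≤ p ω)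
    (hp1 : ∑ ω, p ω ≤ 1) (S : Ω → Finset V) {δ : ℝ} (hδ : 0 < δ) (hc : 0 ≤ c)
    (hS : ∀ ω, Small G (S ω) c) (hA : ∀ a ∈ A, δ ≤ ∑ ω, if a ∈ S ω then p ω else 0) :
    Small G A (c / δ) := by
  intro w hw
  -- the expected weight of `A ∩ S ω`
  have h1 : δ * ∑ a ∈ A, w a ≤ ∑ ω, p ω * ∑ a ∈ A ∩ S ω, w a := by
    calc δ * ∑ a ∈ A, w a = ∑ a ∈ A, δ * w a := by rw [Finset.mul_sum]
      _ ≤ ∑ a ∈ A, (∑ ω, if a ∈ S ω then p ω else 0) * w a :=
        Finset.sum_le_sum fun a ha => mul_le_mul_of_nonneg_right (hA a ha) (hw a)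
      _ = ∑ ω, ∑ a ∈ A, (if a ∈ S ω then p ω * w a else 0) := by
        rw [Finset.sum_comm]
        refine Finset.sum_congr rfl fun a _ => ?_
        rw [Finset.sum_mul]
        refine Finset.sum_congr rfl fun ω _ => ?_
        split_ifs <;> ring
      _ = ∑ ω, p ω * ∑ a ∈ A ∩ S ω, w a := by
        refine Finset.sum_congr rfl fun ω _ => ?_
        rw [Finset.mul_sum, ← Finset.sum_filter]
        refine Finset.sum_congr ?_ fun _ _ => rfl
        ext a
        simp
  -- one of the sets is at least as good as the average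
  by_cases h0 : ∑ a ∈ A, w a ≤ 0
  · refine ⟨∅, Finset.empty_subset _, stab_empty, ?_⟩
    simpa using h0
  push Not at h0
  have h2 : ∃ ω, δ * ∑ a ∈ A, w a ≤ ∑ a ∈ A ∩ S ω, w a := by
    by_contra hcon
    push Not at hcon
    have hpos : 0 < δ * ∑ a ∈ A, w a := mul_pos hδ h0
    have h3 : ∑ ω, p ω * ∑ a ∈ A ∩ S ω, w a ≤ ∑ ω, p ω * (δ * ∑ a ∈ A, w a) :=
      Finset.sum_le_sum fun ω _ => mul_le_mul_of_nonneg_left (hcon ω).le (hp ω)
    have h4 : ∃ ω, 0 < p ω * ∑ a ∈ A ∩ S ω, w a := by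
      by_contra hno
      push Not at hno
      have := Finset.sum_nonpos (s := Finset.univ) fun ω _ => hno ω
      linarith
    obtain ⟨ω, hω⟩ := h4
    have hpω : 0 < p ω := by
      rcases (hp ω).lt_or_eq with h | h
      · exact h
      · rw [← h, zero_mul] at hω
        exact absurd hω (lt_irrefl _)
    have h5 : ∑ ω, p ω * ∑ a ∈ A ∩ S ω, w a < ∑ ω, p ω * (δ * ∑ a ∈ A, w a) :=
      Finset.sum_lt_sum (fun ω _ => mul_le_mul_of_nonneg_left (hcon ω).le (hp ω))
        ⟨ω, Finset.mem_univ _, mul_lt_mul_of_pos_left (hcon ω) hpω⟩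
    rw [← Finset.sum_mul] at h5
    have h6 : (∑ ω, p ω) * (δ * ∑ a ∈ A, w a) ≤ 1 * (δ * ∑ a ∈ A, w a) :=
      mul_le_mul_of_nonneg_right hp1 hpos.le
    linarith
  obtain ⟨ω, hω⟩ := h2
  obtain ⟨I, hI, hIS, hIle⟩ := ((hS ω).mono_set (A := A ∩ S ω) Finset.inter_subset_right) w hw
  refine ⟨I, hI.trans Finset.inter_subset_left, hIS, ?_⟩
  rw [div_mul_eq_mul_div, le_div_iff₀ hδ]
  linarith

/-- Sets covered by few units of random stable sets. -/
lemma small_of_cover [Fintype V] (lam : Finset V → ℝ) (h0 : ∀ I, 0 ≤ lam I)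
    (hS : ∀ I, lam I ≠ 0 → Stab G I) {δ : ℝ} (hδ : 0 < δ)
    (hA : ∀ a ∈ A, δ ≤ ∑ I : Finset V, if a ∈ I then lam I else 0) :
    Small G A ((∑ I, lam I) / δ) := by
  intro w hw
  by_cases hT : ∑ I, lam I = 0
  · have hall : ∀ I, lam I = 0 := fun I =>
      (Finset.sum_eq_zero_iff_of_nonneg fun I _ => h0 I).mp hT I (Finset.mem_univ I)
    have hAe : A = ∅ := by
      rw [Finset.eq_empty_iff_forall_notMem]
      intro a ha
      have := hA a ha
      simp only [hall, ite_self, Finset.sum_const_zero] at this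
      linarith
    subst hAe
    exact ⟨∅, subset_rfl, stab_empty, by simp⟩
  have hTpos : 0 < ∑ I, lam I :=
    lt_of_le_of_ne (Finset.sum_nonneg fun I _ => h0 I) (Ne.symm hT)
  have h1 : δ * ∑ a ∈ A, w a ≤ ∑ I : Finset V, lam I * ∑ a ∈ A ∩ I, w a := by
    calc δ * ∑ a ∈ A, w a = ∑ a ∈ A, δ * w a := by rw [Finset.mul_sum]
      _ ≤ ∑ a ∈ A, (∑ I : Finset V, if a ∈ I then lam I else 0) * w a :=
        Finset.sum_le_sum fun a ha => mul_le_mul_of_nonneg_right (hA a ha) (hw a)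
      _ = ∑ I : Finset V, ∑ a ∈ A, (if a ∈ I then lam I * w a else 0) := by
        rw [Finset.sum_comm]
        refine Finset.sum_congr rfl fun a _ => ?_
        rw [Finset.sum_mul]
        refine Finset.sum_congr rfl fun ω _ => ?_
        split_ifs <;> ring
      _ = ∑ I : Finset V, lam I * ∑ a ∈ A ∩ I, w a := by
        refine Finset.sum_congr rfl fun ω _ => ?_
        rw [Finset.mul_sum, ← Finset.sum_filter]
        refine Finset.sum_congr ?_ fun _ _ => rfl
        ext a
        simp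
  by_cases h00 : ∑ a ∈ A, w a ≤ 0
  · refine ⟨∅, Finset.empty_subset _, stab_empty, ?_⟩
    simpa using h00
  push Not at h00
  have h2 : ∃ I : Finset V, lam I ≠ 0 ∧
      δ * ∑ a ∈ A, w a ≤ (∑ J, lam J) * ∑ a ∈ A ∩ I, w a := by
    by_contra hcon
    push Not at hcon
    have hlt : ∑ I : Finset V, lam I * ((∑ J, lam J) * ∑ a ∈ A ∩ I, w a) <
        ∑ I : Finset V, lam I * (δ * ∑ a ∈ A, w a) := by
      obtain ⟨I, hI⟩ : ∃ I, lam I ≠ 0 := by
        by_contra hno
        push Not at hno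
        exact hT (Finset.sum_eq_zero fun I _ => hno I)
      refine Finset.sum_lt_sum ?_ ⟨I, Finset.mem_univ _,
        mul_lt_mul_of_pos_left (hcon I hI) (lt_of_le_of_ne (h0 I) (Ne.symm hI))⟩
      intro J _
      by_cases hJ : lam J = 0
      · rw [hJ, zero_mul, zero_mul]
      · exact mul_le_mul_of_nonneg_left (hcon J hJ).le (h0 J)
    rw [← Finset.sum_mul] at hlt
    have h3 : ∑ I : Finset V, lam I * ((∑ J, lam J) * ∑ a ∈ A ∩ I, w a) =
        (∑ J, lam J) * ∑ I : Finset V, lam I * ∑ a ∈ A ∩ I, w a := by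
      rw [Finset.mul_sum]
      exact Finset.sum_congr rfl fun I _ => by ring
    rw [h3] at hlt
    have h4 := lt_of_mul_lt_mul_left hlt hTpos.le
    linarith
  obtain ⟨I, hI, hle⟩ := h2
  refine ⟨A ∩ I, Finset.inter_subset_left, (hS I hI).mono Finset.inter_subset_right, ?_⟩
  rw [div_mul_eq_mul_div, le_div_iff₀ hδ]
  linarith

/-- A large subset of a small set contains a large stable set. -/
lemma Small.exists_stab (h : Small G A c) (hB : B ⊆ A) {M : ℕ} (hc : 0 < c)
    (hM : c * M ≤ B.card) : ∃ P, P ⊆ B ∧ Stab G P ∧ P.card = M := by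
  obtain ⟨I, hI, hS, hle⟩ := (h.mono_set hB) (fun _ => 1) (fun _ => zero_le_one)
  simp only [Finset.sum_const, nsmul_eq_mul, mul_one] at hle
  have h1 : M ≤ I.card := by
    have h2 : c * (M : ℝ) ≤ c * (I.card : ℝ) := hM.trans hle
    exact_mod_cast le_of_mul_le_mul_left h2 hc
  obtain ⟨P, hP, hPc⟩ := Finset.exists_subset_card_eq h1
  exact ⟨P, hP.trans hI, hS.mono hP, hPc⟩

end Pool.Agent.Lib.GSR3
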