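import Pool.Agent.Lib.GSR3.Stmts
import Pool.Agent.Lib.GSR3.Base

/-!
# Refining a set: equal or disjoint labels, proper labels
-/

set_option autoImplicit false

namespace Pool.Agent.Lib.GSR3

open Finset Classical
open Pool.Agent.Lib.FracGS (bern bern_nonneg sum_bern sum_bern_filter)

lemma EqOrDisj.mono {V : Type} {A B : Finset V} {g h : V → V} (hB : EqOrDisj B g h)
    (hA : A ⊆ B) : EqOrDisj A g h := by
  rcases hB with hB | hB
  · exact Or.inl fun a ha => hB a (hA ha)
  · exact Or.inr fun a ha b hb => hB a (hA ha) b (hA hb)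

/-- One pair of functions. -/
lemma small_eqOrDisj {V : Type} [Fintype V] (G : SimpleGraph V) (A : Finset V) (g h : V → V)
    (c : ℝ) (hc : 0 ≤ c) (H : ∀ A', A' ⊆ A → EqOrDisj A' g h → Small G A' c) :
    Small G A (5 * c) := by
  let p : V → ℝ := fun _ => 1 / 2
  have hp0 : ∀ v, 0 ≤ p v := fun v => by norm_num [p]
  have hp1 : ∀ v, p v ≤ 1 := fun v => by norm_num [p]
  have h1 : Small G (A.filter (fun a => g a = h a)) c := by
    refine H _ (Finset.filter_subset _ _) (Or.inl ?_)
    intro a ha
    exact (Finset.mem_filter.1 ha).2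
  have h2 : Small G (A.filter (fun a => g a ≠ h a)) (c / (1 / 4)) := by
    refine small_of_average (Ω := Finset V) (bern p) (bern_nonneg hp0 hp1) (sum_bern p).le
      (fun Z => A.filter (fun a => g a ∈ Z ∧ h a ∉ Z)) (by norm_num) hc ?_ ?_
    · intro Z
      refine H _ (Finset.filter_subset _ _) (Or.inr ?_)
      intro a ha b hb hab
      have ha' := (Finset.mem_filter.1 ha).2
      have hb' := (Finset.mem_filter.1 hb).2
      apply hb'.2
      rw [← hab]
      exact ha'.1
    · intro a ha
      obtain ⟨haA, hne⟩ := Finset.mem_filter.1 ha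
      have hdis : Disjoint ({g a} : Finset V) {h a} := by
        rw [Finset.disjoint_singleton_left, Finset.mem_singleton]
        exact hne
      have hsum := sum_bern_filter p {g a} {h a} hdis
      rw [Finset.prod_singleton, Finset.prod_singleton] at hsum
      have hq : p (g a) * (1 - p (h a)) = 1 / 4 := by norm_num [p]
      rw [hq, Finset.sum_filter] at hsum
      rw [← hsum]
      refine Finset.sum_le_sum fun Z _ => ?_
      have hiff : ({g a} ⊆ Z ∧ Disjoint {h a} Z) ↔
          a ∈ A.filter (fun a => g a ∈ Z ∧ h a ∉ Z) := by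
        rw [Finset.mem_filter, Finset.singleton_subset_iff, Finset.disjoint_singleton_left]
        exact ⟨fun h => ⟨haA, h⟩, fun h => h.2⟩
      simp only [hiff]
      exact le_rfl
  have h3 := h1.union h2 hc (div_nonneg hc (by norm_num))
  have h4 : A.filter (fun a => g a = h a) ∪ A.filter (fun a => g a ≠ h a) = A :=
    Finset.filter_union_filter_not_eq _ _
  rw [h4] at h3
  refine h3.mono_const (le_of_eq ?_)
  ring

theorem stEqList : StEqList := by
  intro V _ G L
  induction L with
  | nil =>
    intro A c hc H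
    have := H A subset_rfl (by simp)
    simpa using this
  | cons p L ih =>
    intro A c hc H
    have h5 : Small G A (5 * (5 ^ L.length * c)) := by
      refine small_eqOrDisj G A p.1 p.2 _ (by positivity) ?_
      intro A' hA' hp
      refine ih A' c hc ?_
      intro A'' hA'' hL
      refine H A'' (hA''.trans hA') ?_
      intro q hq
      rcases List.mem_cons.1 hq with rfl | hq
      · exact hp.mono hA''
      · exact hL q hq
    refine h5.mono_const (le_of_eq ?_)
    rw [List.length_cons, pow_succ]
    ring

theorem stProper : StProper := by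
  intro V _ G A g κ c hκ hc hfib H w hw
  choose I hI hIS hIle using fun u => hfib u w hw
  have hA' : A.filter (fun a => a ∈ I (g a)) ⊆ A := Finset.filter_subset _ _
  have hprop : ProperOn G (A.filter (fun a => a ∈ I (g a))) g := by
    intro a ha b hb hab hg
    have ha' := (Finset.mem_filter.1 ha).2
    have hb' := (Finset.mem_filter.1 hb).2
    rw [← hg] at hb'
    exact hIS _ a ha' b hb' hab
  obtain ⟨J, hJ, hJS, hJle⟩ := H _ hA' hprop w hw
  refine ⟨J, hJ.trans hA', hJS, ?_⟩
  have h1 : ∑ v ∈ A, w v ≤ κ * ∑ v ∈ A.filter (fun a => a ∈ I (g a)), w v := by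
    calc ∑ v ∈ A, w v = ∑ u : V, ∑ v ∈ A.filter (fun a => g a = u), w v :=
        (Finset.sum_fiberwise_of_maps_to (fun a _ => Finset.mem_univ (g a)) w).symm
      _ ≤ ∑ u : V, κ * ∑ v ∈ I u, w v := Finset.sum_le_sum fun u _ => hIle u
      _ = κ * ∑ u : V, ∑ v ∈ I u, w v := by rw [Finset.mul_sum]
      _ = κ * ∑ v ∈ A.filter (fun a => a ∈ I (g a)), w v := by
        congr 1
        rw [← Finset.sum_fiberwise_of_maps_to (s := A.filter (fun a => a ∈ I (g a)))
          (fun a _ => Finset.mem_univ (g a)) w]
        refine Finset.sum_congr rfl fun u _ => ?_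
        refine Finset.sum_congr ?_ fun _ _ => rfl
        ext v
        rw [Finset.mem_filter, Finset.mem_filter]
        constructor
        · intro hv
          have hv' := Finset.mem_filter.1 (hI u hv)
          refine ⟨⟨hv'.1, ?_⟩, hv'.2⟩
          rw [hv'.2]
          exact hv
        · rintro ⟨⟨_, h2⟩, h3⟩
          rw [← h3]
          exact h2
  calc ∑ v ∈ A, w v ≤ κ * ∑ v ∈ A.filter (fun a => a ∈ I (g a)), w v := h1
    _ ≤ κ * (c * ∑ v ∈ J, w v) := mul_le_mul_of_nonneg_left hJle hκ
    _ = κ * c * ∑ v ∈ J, w v := by ring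

end Pool.Agent.Lib.GSR3
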