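import Pool.Agent.Lib.GSR3.Stmts
import Pool.Agent.Lib.GSR3.Base

/-!
# A tree embeds in the tree of words
-/

set_option autoImplicit false

namespace Pool.Agent.Lib.GSR3

open Finset Classical
open Pool.Agent.Lib.FracGS (TAdj)

/-- The word of a walk to the root. -/
noncomputable def wd {W : Type} [Fintype W] {T : SimpleGraph W} {v r : W} (p : T.Walk v r) :
    List (Fin (Fintype.card W)) := p.support.dropLast.map (Fintype.equivFin W)

lemma wd_nil {W : Type} [Fintype W] {T : SimpleGraph W} {r : W} :
    wd (SimpleGraph.Walk.nil : T.Walk r r) = [] := rfl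

lemma wd_cons {W : Type} [Fintype W] {T : SimpleGraph W} {u v r : W} (h : T.Adj u v)
    (p : T.Walk v r) : wd (SimpleGraph.Walk.cons h p) = Fintype.equivFin W u :: wd p := by
  unfold wd
  rw [SimpleGraph.Walk.support_cons, List.dropLast_cons_of_ne_nil (SimpleGraph.Walk.support_ne_nil p),
    List.map_cons]

lemma length_wd {W : Type} [Fintype W] {T : SimpleGraph W} {v r : W} (p : T.Walk v r) :
    (wd p).length = p.length := by
  unfold wd
  rw [List.length_map, List.length_dropLast, SimpleGraph.Walk.length_support]
  rfl

theorem stWords : StWords := by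
  intro W _ T r d hT hd
  have hex : ∀ v, ∃ p : T.Walk v r, p.IsPath ∧ p.length ≤ d := by
    intro v
    obtain ⟨p, hp⟩ := (hT.connected v r).exists_walk_length_eq_dist
    refine ⟨p.bypass, p.bypass_isPath, (p.length_bypass_le_length).trans ?_⟩
    rw [hp, SimpleGraph.dist_comm]
    exact hd v
  choose P hP hPd using hex
  have huniq : ∀ {a b : W} (p q : T.Walk a b), p.IsPath → q.IsPath → p = q := by
    intro a b p q hp hq
    have := hT.isAcyclic.path_unique ⟨p, hp⟩ ⟨q, hq⟩
    exact congrArg Subtype.val this
  have hinj : Function.Injective (fun v => wd (P v)) := by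
    have key : ∀ (a b : W) (p : T.Walk a r) (q : T.Walk b r), wd p = wd q → a = b := by
      intro a b p q h
      cases p with
      | nil =>
        cases q with
        | nil => rfl
        | cons h2 q => rw [wd_nil, wd_cons] at h; cases h
      | cons h1 p =>
        cases q with
        | nil => rw [wd_nil, wd_cons] at h; cases h
        | cons h2 q =>
          rw [wd_cons, wd_cons] at h
          exact (Fintype.equivFin W).injective (List.cons.inj h).1
    intro a b h
    exact key a b _ _ h
  have hpar : ∀ (u v : W) (t : Fin (Fintype.card W)), wd (P u) = t :: wd (P v) →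
      T.Adj u v := by
    intro u v t h
    have : ∀ (p : T.Walk u r), p.IsPath → wd p = t :: wd (P v) → T.Adj u v := by
      intro p hp h
      cases p with
      | nil => rw [wd_nil] at h; cases h
      | @cons _ w _ h1 p =>
        rw [wd_cons] at h
        have h2 : p = P w := huniq _ _ hp.of_cons (hP w)
        rw [h2] at h
        have h3 : w = v := hinj (List.cons.inj h).2
        rw [← h3]
        exact h1
    exact this _ (hP u) h
  have hadj : ∀ u v : W, T.Adj u v → TAdj (wd (P u)) (wd (P v)) := by
    intro u v huv
    by_cases hv : v ∈ (P u).support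
    · left
      have h1 : (P u).dropUntil v hv = P v := huniq _ _ ((hP u).dropUntil hv) (hP v)
      have h2 : (P u).takeUntil v hv = SimpleGraph.Walk.cons huv SimpleGraph.Walk.nil := by
        refine huniq _ _ ((hP u).takeUntil hv) ?_
        rw [SimpleGraph.Walk.cons_isPath_iff]
        exact ⟨SimpleGraph.Walk.IsPath.nil, by simpa using huv.ne⟩
      have h3 := (P u).take_spec hv
      rw [h1, h2] at h3
      refine ⟨Fintype.equivFin W u, ?_⟩
      rw [← h3]
      exact wd_cons huv (P v)
    · right
      have h1 : P v = SimpleGraph.Walk.cons huv.symm (P u) := by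
        refine huniq _ _ (hP v) ?_
        rw [SimpleGraph.Walk.cons_isPath_iff]
        exact ⟨hP u, hv⟩
      exact ⟨Fintype.equivFin W v, by rw [h1]; exact wd_cons huv.symm (P u)⟩
  exact ⟨Fintype.card W, fun v => wd (P v), fun v => by rw [length_wd]; exact hPd v, hinj,
    fun u v => ⟨hadj u v, fun h => by
      rcases h with ⟨t, h⟩ | ⟨t, h⟩
      · exact hpar u v t h
      · exact (hpar v u t h).symm⟩⟩

end Pool.Agent.Lib.GSR3
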