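import Pool.Agent.Lib.GSR3.Defs
import Pool.Agent.Lib.MP_763321_co.Base

/-!
# Fractional Gyarfas-Sumner for trees of radius 3: statements of the modules
-/

set_option autoImplicit false

namespace Pool.Agent.Lib.GSR3

open Finset Classical
open Pool.Agent.Lib.FracGS (nb wnb TAdj)
open Pool.Agent.Lib.MP_763321_co (pat)

/-- Module `Refine`, part 1. -/
def StEqList : Prop :=
  ∀ (V : Type) [Fintype V] (G : SimpleGraph V) (L : List ((V → V) × (V → V))) (A : Finset V)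
    (c : ℝ), 0 ≤ c →
      (∀ A', A' ⊆ A → (∀ p ∈ L, EqOrDisj A' p.1 p.2) → Small G A' c) →
        Small G A (5 ^ L.length * c)

/-- Module `Refine`, part 2. -/
def StProper : Prop :=
  ∀ (V : Type) [Fintype V] (G : SimpleGraph V) (A : Finset V) (g : V → V) (κ c : ℝ), 0 ≤ κ →
    0 ≤ c → (∀ u, Small G (A.filter (fun a => g a = u)) κ) →
      (∀ A', A' ⊆ A → ProperOn G A' g → Small G A' c) → Small G A (κ * c)

/-- Module `TreeChain`: an exact chain contains every tree. -/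
def StTree : Prop :=
  ∀ (V : Type) (G : SimpleGraph V) (x : ℕ → V → V) (A : ℕ → Finset V) (n : ℕ) (par : ℕ → ℕ),
    (∀ j, 1 ≤ j → par j < j) → IsChain G x A n → (A n).Nonempty →
      Nonempty (pat par (n + 1) ↪g G)

/-- Module `ChainEx`: exact covers everywhere give exact chains. -/
def StChain : Prop :=
  ∀ (n : ℕ) (par : ℕ → ℕ) (κ K L : ℝ), (∀ j, 1 ≤ j → par j < j) → 0 ≤ κ → 0 ≤ K → 0 ≤ L →
    ∃ F : ℝ, 0 ≤ F ∧ ∀ (V : Type) [Fintype V] (G : SimpleGraph V) (U : Finset V),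
      (∀ v ∈ U, Small G (nb G U v) κ) → HasExact G U K L → IsEmpty (pat par (n + 1) ↪g G) →
        Small G U F

/-- Module `LP`: existence of the optimal solution. -/
def StLP : Prop :=
  ∀ (V : Type) [Fintype V] (G : SimpleGraph V) (U : Finset V) (ρ : ℝ), 1 < ρ → ¬ Small G U ρ →
    ∃ (y ν Lam : V → ℝ) (lam : Finset V → ℝ), LPSol G U ρ y ν Lam lam

/-- Module `Swap`. -/
def StSwap : Prop :=
  ∀ (V : Type) [Fintype V] (G : SimpleGraph V) (U : Finset V) (ρ : ℝ) (y ν Lam : V → ℝ)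
    (lam : Finset V → ℝ), 1 < ρ → LPSol G U ρ y ν Lam lam →
      (∀ c, (ρ - 1) * y c ≤ 1) ∧
      ∀ (J Z : Finset V) (R : ℕ), Stab G J → (∀ c ∈ J, y c ≠ 0) →
        (∀ c ∈ J, ((nb G U c).filter (fun u => y u ≠ 0 ∧ u ∉ Z)).card < R) →
          (ρ - R) * ∑ c ∈ J, y c ≤ ∑ z ∈ Z, y z

/-- Module `TwoTree`: trees of depth two at the giants. -/
def StT2 : Prop :=
  ∀ (M m : ℕ) (κ : ℝ), 1 ≤ κ → ∃ ρ0 : ℝ, 1 < ρ0 ∧ ∀ (V : Type) [Fintype V] (G : SimpleGraph V)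
    (U : Finset V) (ρ : ℝ) (y ν Lam : V → ℝ) (lam : Finset V → ℝ), ρ0 ≤ ρ →
      LPSol G U ρ y ν Lam lam → (∀ v ∈ U, Small G (nb G U v) κ) →
        ∀ x ∈ U, ∀ J Q : Finset V, J ⊆ nb G U x → 1 / 2 ≤ ∑ v ∈ J, y v → Q.card ≤ m →
          (∀ q ∈ Q, ∀ v ∈ J, q ≠ v ∧ ¬ G.Adj q v) → Q ⊆ U →
            ∃ φ : List (Fin M) → V, Tree G 2 M φ ∧ φ [] = x ∧
              ∀ w, w ≠ [] → w.length ≤ 2 → φ w ∈ U ∧ y (φ w) ≠ 0 ∧
                ∀ q ∈ Q, q ≠ φ w ∧ ¬ G.Adj q (φ w)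

/-- Module `ThreeTree`: a vertex which sees much `ν` is the root of a tree of depth three. -/
def StT3 : Prop :=
  ∀ (M : ℕ) (κ : ℝ), 1 ≤ κ → ∃ ρ0 C0 : ℝ, 1 < ρ0 ∧ 1 ≤ C0 ∧ ∀ (V : Type) [Fintype V]
    (G : SimpleGraph V) (U : Finset V) (ρ : ℝ) (y ν Lam : V → ℝ) (lam : Finset V → ℝ), ρ0 ≤ ρ →
      LPSol G U ρ y ν Lam lam → (∀ v ∈ U, Small G (nb G U v) κ) →
        ∀ b ∈ U, C0 ≤ wnb G U ν b → ∃ φ : List (Fin M) → V, Tree G 3 M φ

/-- Module `Sample`: a random exact cover. -/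
def StSample : Prop :=
  ∀ (V : Type) [Fintype V] (G : SimpleGraph V) (U : Finset V) (ν : V → ℝ) (C0 c : ℝ), 1 ≤ C0 →
    0 ≤ c → (∀ v, 0 ≤ ν v) → (∀ v, v ∉ U → ν v = 0) → (∀ v, ν v ≤ C0) →
      (∀ b ∈ U, wnb G U ν b ≤ C0) → (∀ B x, ExactCover G U B x → Small G B c) →
        Small G (U.filter (fun u => 1 / 4 ≤ wnb G U ν u)) (64 * C0 * c)

/-- Module `Exact`: graphs without the tree of depth three have exact covers. -/
def StExact : Prop :=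
  ∀ (M : ℕ) (κ : ℝ), 1 ≤ κ → ∃ K L : ℝ, 0 ≤ K ∧ 0 ≤ L ∧ ∀ (V : Type) [Fintype V]
    (G : SimpleGraph V) (U : Finset V), (∀ v ∈ U, Small G (nb G U v) κ) →
      (∀ φ : List (Fin M) → V, ¬ Tree G 3 M φ) → HasExact G U K L

/-- Module `Words`: a tree of radius at most `d` is an induced subgraph of the tree of words. -/
def StWords : Prop :=
  ∀ (W : Type) [Fintype W] (T : SimpleGraph W) (r : W) (d : ℕ), T.IsTree →
    (∀ v, T.dist r v ≤ d) → ∃ (M : ℕ) (f : W → List (Fin M)), (∀ v, (f v).length ≤ d) ∧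
      Function.Injective f ∧ ∀ u v, T.Adj u v ↔ TAdj (f u) (f v)

end Pool.Agent.Lib.GSR3
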