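import Pool.Agent.Lib.GSR3.Base
import Pool.Agent.Lib.GSR3.Stmts

/-!
# Existence of exact chains
-/

set_option autoImplicit false

namespace Pool.Agent.Lib.GSR3

open Finset Classical
open Pool.Agent.Lib.FracGS (nb wnb TAdj mem_nb nb_subset nb_mono)
open Pool.Agent.Lib.MP_763321_co (pat)

section Words

/-- The decreasing list `i, i-1, ..., l+1`. -/
def dl (l : ℕ) : ℕ → List ℕ
  | 0 => []
  | i + 1 => if l < i + 1 then (i + 1) :: dl l i else dl l i

lemma sublist_dl {l : ℕ} : ∀ (i : ℕ) (v : List ℕ), Word l i v → v.Sublist (dl l i) := by
  intro i
  induction i with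
  | zero =>
    intro v hv
    have : v = [] := by
      rw [List.eq_nil_iff_forall_not_mem]
      intro m hm
      have := hv.2 m hm
      omega
    rw [this]
    exact List.nil_sublist _
  | succ i ih =>
    intro v hv
    unfold dl
    cases v with
    | nil => exact List.nil_sublist _
    | cons m z =>
      have hm := hv.2 m (List.mem_cons_self)
      rw [if_pos (by omega)]
      have hz : ∀ a ∈ z, a < m := (List.pairwise_cons.mp hv.1).1
      by_cases hmi : m = i + 1
      · rw [hmi]
        refine (ih z ⟨(List.pairwise_cons.mp hv.1).2, ?_⟩).cons_cons _
        intro a ha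
        have h1 := hz a ha
        have h2 := hv.2 a (List.mem_cons_of_mem _ ha)
        omega
      · refine (ih (m :: z) ⟨hv.1, ?_⟩).cons _
        intro a ha
        have h2 := hv.2 a ha
        rcases List.mem_cons.mp ha with h | h
        · omega
        · have h1 := hz a h
          omega

/-- All the triples `(l, v, w)` that are needed at level `i`. -/
def idx (i : ℕ) : List (ℕ × List ℕ × List ℕ) :=
  (List.range (i + 1)).flatMap fun l =>
    (dl l i).sublists.flatMap fun v => (dl l i).sublists.map fun w => (l, v, w)

lemma mem_idx {i l : ℕ} {v w : List ℕ} (hl : l ≤ i) (hv : Word l i v) (hw : Word l i w) :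
    (l, v, w) ∈ idx i := by
  unfold idx
  rw [List.mem_flatMap]
  refine ⟨l, List.mem_range.mpr (by omega), ?_⟩
  rw [List.mem_flatMap]
  refine ⟨v, List.mem_sublists.mpr (sublist_dl i v hv), ?_⟩
  rw [List.mem_map]
  exact ⟨w, List.mem_sublists.mpr (sublist_dl i w hw), rfl⟩

lemma app_congr {V : Type} {x x' : ℕ → V → V} : ∀ (v : List ℕ) (b : V),
    (∀ m ∈ v, x m = x' m) → app x v b = app x' v b := by
  intro v
  induction v with
  | nil => intro b _; rfl
  | cons m z ih =>
    intro b h
    show app x z (x m b) = app x' z (x' m b)
    rw [h m List.mem_cons_self]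
    exact ih _ fun a ha => h a (List.mem_cons_of_mem _ ha)

end Words

variable {V : Type} {G : SimpleGraph V}

lemma ExactCover.restrict {A B B' : Finset V} {x : V → V} (h : ExactCover G A B x)
    (hB : B' ⊆ B) : ExactCover G A B' x :=
  ⟨hB.trans h.sub, fun a ha => h.mem a (hB ha), fun a ha b hb => h.out a (hB ha) b (hB hb),
    fun a ha => h.adj a (hB ha), fun a ha b hb => h.exact a (hB ha) b (hB hb)⟩

lemma IsChain.subset {x : ℕ → V → V} {A : ℕ → Finset V} {n : ℕ} (h : IsChain G x A n) :
    ∀ i ≤ n, A i ⊆ A 0 := by
  intro i
  induction i with
  | zero => intro _; exact subset_rfl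
  | succ i ih =>
    intro hi
    exact (h.cover i (by omega)).sub.trans (ih (by omega))

/-- Extension of a chain by one level. -/
lemma IsChain.extend {x : ℕ → V → V} {A : ℕ → Finset V} {i : ℕ} (h : IsChain G x A i)
    {B : Finset V} {z : V → V} (hB : ExactCover G (A i) B z) (hp : ProperOn G B z)
    (hsep : ∀ t ∈ idx (i + 1), EqOrDisj B
      (fun b => Function.update x (i + 1) z t.1 (app (Function.update x (i + 1) z) t.2.1 b))
      (fun b => Function.update x (i + 1) z t.1 (app (Function.update x (i + 1) z) t.2.2 b))) :
    IsChain G (Function.update x (i + 1) z) (Function.update A (i + 1) B) (i + 1) := by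
  refine ⟨?_, ?_, ?_⟩
  · intro t ht
    rcases Nat.lt_succ_iff_lt_or_eq.mp ht with h1 | h1
    · rw [Function.update_of_ne (by omega), Function.update_of_ne (by omega),
        Function.update_of_ne (by omega)]
      exact h.cover t h1
    · subst h1
      rw [Function.update_of_ne (by omega), Function.update_self, Function.update_self]
      exact hB
  · intro t ht
    rcases Nat.lt_succ_iff_lt_or_eq.mp ht with h1 | h1
    · rw [Function.update_of_ne (by omega), Function.update_of_ne (by omega)]
      exact h.proper t h1
    · subst h1
      rw [Function.update_self, Function.update_self]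
      exact hp
  · intro t ht l hl hlt v w hv hw
    by_cases h1 : t = i + 1
    · subst h1
      rw [Function.update_self]
      exact hsep (l, v, w) (mem_idx hlt hv hw)
    · rw [Function.update_of_ne h1]
      have hx : ∀ u, Word l t u → ∀ b, app (Function.update x (i + 1) z) u b = app x u b := by
        intro u hu b
        refine app_congr u b fun m hm => ?_
        have := (hu.2 m hm).2
        rw [Function.update_of_ne (by omega)]
      rw [Function.update_of_ne (by omega : l ≠ i + 1)]
      simp only [hx v hv, hx w hw]
      exact h.sep t (by omega) l hl hlt v w hv hw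

theorem stChain (h1 : StEqList) (h2 : StProper) (h3 : StTree) : StChain := by
  intro n par κ K L hpar hκ hK hL
  -- downward induction
  have key : ∀ j : ℕ, ∃ F : ℝ, 0 ≤ F ∧ ∀ i, i + j = n → ∀ (V : Type) [Fintype V]
      (G : SimpleGraph V) (U : Finset V) (x : ℕ → V → V) (A : ℕ → Finset V),
      (∀ v ∈ U, Small G (nb G U v) κ) → HasExact G U K L → IsEmpty (pat par (n + 1) ↪g G) →
        IsChain G x A i → A 0 = U → Small G (A i) F := by
    intro j
    induction j with
    | zero =>
      refine ⟨0, le_rfl, ?_⟩
      intro i hi V _ G U x A _ _ hE hA _
      have hin : i = n := by omega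
      subst hin
      rcases (A i).eq_empty_or_nonempty with he | hne
      · rw [he]
        exact small_empty le_rfl
      · obtain ⟨f⟩ := h3 V G x A i par hpar hA hne
        exact (hE.false f).elim
    | succ j ih =>
      obtain ⟨F, hF, hind⟩ := ih
      refine ⟨K + L * (κ * (5 ^ (idx (n - j)).length * F)), by positivity, ?_⟩
      intro i hi V _ G U x A hU hX hE hA hA0
      have hi1 : n - j = i + 1 := by omega
      refine hX (A i) (by rw [← hA0]; exact hA.subset i le_rfl) _ (by positivity) ?_
      intro B z hB
      refine h2 V G B z κ _ hκ (by positivity) ?_ ?_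
      · -- the fibres
        intro u
        by_cases hu : u ∈ U
        · refine (hU u hu).mono_set ?_
          intro a ha
          rw [Finset.mem_filter] at ha
          rw [mem_nb]
          refine ⟨?_, ?_⟩
          · rw [← hA0]
            exact hA.subset i le_rfl (hB.sub ha.1)
          · rw [← ha.2]
            exact hB.adj a ha.1
        · have he : B.filter (fun a => z a = u) = ∅ := by
            rw [Finset.filter_eq_empty_iff]
            intro a ha hau
            apply hu
            rw [← hau, ← hA0]
            exact hA.subset i le_rfl (hB.mem a ha)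
          rw [he]
          exact small_empty hκ
      · intro B' hB' hp
        have hlen : (idx (n - j)).length = ((idx (i + 1)).map (fun t =>
            ((fun b : V => Function.update x (i + 1) z t.1
                (app (Function.update x (i + 1) z) t.2.1 b)),
              (fun b : V => Function.update x (i + 1) z t.1
                (app (Function.update x (i + 1) z) t.2.2 b))))).length := by
          rw [List.length_map, hi1]
        rw [hlen]
        refine h1 V G _ B' F hF ?_
        intro B'' hB'' hsep
        have hch : IsChain G (Function.update x (i + 1) z) (Function.update A (i + 1) B'')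
            (i + 1) := by
          refine hA.extend (hB.restrict (hB''.trans hB')) ?_ ?_
          · intro a ha b hb hab
            exact hp a (hB'' ha) b (hB'' hb) hab
          · intro t ht
            exact hsep _ (List.mem_map_of_mem ht)
        have := hind (i + 1) (by omega) V G U _ _ hU hX hE hch (by
          rw [Function.update_of_ne (by omega)]
          exact hA0)
        rw [Function.update_self] at this
        exact this
  obtain ⟨F, hF, h⟩ := key n
  refine ⟨F, hF, ?_⟩
  intro V _ G U hU hX hE
  exact h 0 (by omega) V G U (fun _ v => v) (fun _ => U) hU hX hE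
    ⟨fun i hi => absurd hi (by omega), fun i hi => absurd hi (by omega),
      fun i hi l hl hli => absurd hli (by omega)⟩ rfl

end Pool.Agent.Lib.GSR3
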