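import Pool.Agent.Lib.GSR3.Stmts
import Pool.Agent.Lib.GSR3.Base

/-!
# Fractional Gyarfas-Sumner for trees of radius 3: an exact chain contains every tree
-/

set_option autoImplicit false

namespace Pool.Agent.Lib.GSR3

open Finset Classical
open Pool.Agent.Lib.MP_763321_co (pat)

namespace TreeChain

lemma app_append {V : Type} (x : ℕ → V → V) (v w : List ℕ) (b : V) :
    app x (v ++ w) b = app x w (app x v b) := by
  induction v generalizing b with
  | nil => rfl
  | cons m z ih => exact ih (x m b)

variable {V : Type} {G : SimpleGraph V} {x : ℕ → V → V} {A : ℕ → Finset V} {n : ℕ}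

lemma chain_sub (h : IsChain G x A n) {i j : ℕ} (hij : i ≤ j) (hj : j ≤ n) : A j ⊆ A i := by
  induction j, hij using Nat.le_induction with
  | base => exact Subset.refl _
  | succ j hij ih => exact ((h.cover j (by omega)).sub).trans (ih (by omega))

lemma word_cases {l i : ℕ} {v : List ℕ} (h : Word l (i + 1) v) :
    Word l i v ∨ ∃ z, v = (i + 1) :: z ∧ Word l i z := by
  cases v with
  | nil => exact Or.inl ⟨List.Pairwise.nil, by simp⟩
  | cons m z =>
    obtain ⟨h1, h2⟩ := h
    rw [List.pairwise_cons] at h1
    have h3 := h2 m (by simp)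
    rcases Nat.lt_or_ge m (i + 1) with h4 | h4
    · left
      refine ⟨List.pairwise_cons.mpr h1, ?_⟩
      intro a ha
      refine ⟨(h2 a ha).1, ?_⟩
      rcases List.mem_cons.mp ha with h5 | h5
      · omega
      · have := h1.1 a h5
        omega
    · right
      obtain rfl : m = i + 1 := by omega
      refine ⟨z, rfl, h1.2, ?_⟩
      intro a ha
      refine ⟨(h2 a (List.mem_cons_of_mem _ ha)).1, ?_⟩
      have := h1.1 a ha
      omega

lemma getLast?_cons_eq {m : ℕ} {z y : List ℕ} (h : z.getLast? = y.getLast?) :
    (m :: z).getLast? = (m :: y).getLast? := by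
  rw [List.getLast?_cons, List.getLast?_cons, h]

/-- The mixed case of the induction. -/
lemma key_mixed (h : IsChain G x A n) {i : ℕ} (hi : i + 1 ≤ n) {l : ℕ} (hl : 1 ≤ l) (hli : l ≤ i)
    (ih : ∀ v w : List ℕ, Word l i v → Word l i w → v.getLast? ≠ w.getLast? → ∀ b ∈ A i,
      x l (app x v b) ≠ x l (app x w b))
    {z w : List ℕ} (hz : Word l i z) (hw : Word l i w)
    (hne : ((i + 1) :: z).getLast? ≠ w.getLast?) {b : V} (hb : b ∈ A (i + 1)) :
    x l (app x ((i + 1) :: z) b) ≠ x l (app x w b) := by
  intro heq
  have hcov := h.cover i (by omega)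
  have hc : x (i + 1) b ∈ A i := hcov.mem b hb
  have hb' : b ∈ A i := hcov.sub hb
  have heq' : x l (app x z (x (i + 1) b)) = x l (app x w b) := heq
  have hall : ∀ a ∈ A i, x l (app x z a) = x l (app x w a) := by
    rcases h.sep i (by omega) l hl hli z w hz hw with h1 | h1
    · exact h1
    · exact absurd heq' (h1 _ hc _ hb')
  by_cases hlast : z.getLast? = w.getLast?
  · cases z with
    | nil =>
      rw [List.getLast?_nil] at hlast
      have hw0 : w = [] := List.getLast?_eq_none_iff.mp hlast.symm
      subst hw0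
      obtain ⟨l', rfl⟩ : ∃ l', l = l' + 1 := ⟨l - 1, by omega⟩
      have hsub := chain_sub h (i := l' + 1) (j := i) hli (by omega)
      exact h.proper l' (by omega) _ (hsub hc) _ (hsub hb') (hcov.adj b hb) heq'
    | cons a z' =>
      apply hne
      rw [← hlast, List.getLast?_cons, List.getLast?_cons]
      rfl
  · exact ih z w hz hw hlast b hb' (hall b hb')

/-- The key lemma. -/
lemma key (h : IsChain G x A n) : ∀ i ≤ n, ∀ l, 1 ≤ l → l ≤ i → ∀ v w : List ℕ, Word l i v →
    Word l i w → v.getLast? ≠ w.getLast? → ∀ b ∈ A i, x l (app x v b) ≠ x l (app x w b) := by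
  intro i
  induction i with
  | zero =>
    intro _ l h1 h2
    omega
  | succ i ih =>
    intro hi l hl hli v w hv hw hne b hb
    have hcov := h.cover i (by omega)
    rcases Nat.lt_or_ge i l with h1 | h1
    · -- `l = i + 1`: both words are empty
      have hnil : ∀ u : List ℕ, Word l (i + 1) u → u = [] := by
        intro u hu
        cases u with
        | nil => rfl
        | cons m z =>
          have := hu.2 m (by simp)
          omega
      rw [hnil v hv, hnil w hw] at hne
      exact absurd rfl hne
    have ih' := ih (by omega) l hl h1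
    rcases word_cases hv with hv' | ⟨z, rfl, hz⟩ <;> rcases word_cases hw with hw' | ⟨y, rfl, hy⟩
    · exact ih' v w hv' hw' hne b (hcov.sub hb)
    · exact (key_mixed h hi hl h1 ih' hy hv' (Ne.symm hne) hb).symm
    · exact key_mixed h hi hl h1 ih' hz hw' hne hb
    · have hc : x (i + 1) b ∈ A i := hcov.mem b hb
      refine ih' z y hz hy ?_ _ hc
      intro h2
      exact hne (getLast?_cons_eq h2)

/-- The words of the nodes. -/
def wd (par : ℕ → ℕ) (n : ℕ) (j : ℕ) : List ℕ :=
  if _h : par j < j then wd par n (par j) ++ [n + 1 - j] else []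
termination_by j

lemma wd_zero (par : ℕ → ℕ) (n : ℕ) : wd par n 0 = [] := by
  rw [wd, dif_neg (Nat.not_lt_zero _)]

lemma wd_pos {par : ℕ → ℕ} {n j : ℕ} (h : par j < j) :
    wd par n j = wd par n (par j) ++ [n + 1 - j] := by
  rw [wd, dif_pos h]

lemma wd_word {par : ℕ → ℕ} (hpar : ∀ j, 1 ≤ j → par j < j) (n : ℕ) :
    ∀ j ≤ n, Word (n - j) n (wd par n j) := by
  intro j
  induction j using Nat.strong_induction_on with
  | _ j ih =>
    intro hj
    rcases Nat.eq_zero_or_pos j with h0 | h0
    · subst h0
      rw [wd_zero]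
      exact ⟨List.Pairwise.nil, by simp⟩
    · have h1 := hpar j h0
      obtain ⟨h2, h3⟩ := ih (par j) h1 (by omega)
      rw [wd_pos h1]
      refine ⟨?_, ?_⟩
      · rw [List.pairwise_append]
        refine ⟨h2, List.pairwise_singleton _ _, ?_⟩
        intro a ha c hc
        rw [List.mem_singleton] at hc
        have := (h3 a ha).1
        omega
      · intro m hm
        rcases List.mem_append.mp hm with h4 | h4
        · have := h3 m h4
          omega
        · rw [List.mem_singleton] at h4
          omega

lemma wd_last {par : ℕ → ℕ} (hpar : ∀ j, 1 ≤ j → par j < j) {n i j : ℕ} (hi : i ≤ n) (hj : j ≤ n)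
    (h : (wd par n i).getLast? = (wd par n j).getLast?) : i = j := by
  rcases Nat.eq_zero_or_pos i with h0 | h0 <;> rcases Nat.eq_zero_or_pos j with h1 | h1
  · omega
  · rw [h0, wd_zero, wd_pos (hpar j h1)] at h
    simp at h
  · rw [h1, wd_zero, wd_pos (hpar i h0)] at h
    simp at h
  · rw [wd_pos (hpar i h0), wd_pos (hpar j h1)] at h
    simp only [List.getLast?_append, List.getLast?_singleton, Option.some_or,
      Option.some.injEq] at h
    omega

lemma word_mono {l l' i : ℕ} {v : List ℕ} (h : Word l i v) (hl : l' ≤ l) : Word l' i v :=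
  ⟨h.1, fun m hm => ⟨by have := (h.2 m hm).1; omega, (h.2 m hm).2⟩⟩

end TreeChain

open TreeChain in
theorem stTree : StTree := by
  intro V G x A n par hpar h hne
  obtain ⟨b, hb⟩ := hne
  set X : ℕ → V := fun j => app x (wd par n j) b with hX
  have hXs : ∀ j, 1 ≤ j → X j = x (n + 1 - j) (X (par j)) := by
    intro j hj
    simp only [hX]
    rw [wd_pos (hpar j hj), app_append]
    rfl
  have hXm : ∀ j ≤ n, X j ∈ A (n - j) := by
    intro j
    induction j using Nat.strong_induction_on with
    | _ j ih =>
      intro hj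
      rcases Nat.eq_zero_or_pos j with h0 | h0
      · subst h0
        simp only [hX, wd_zero]
        exact hb
      · have h1 := hpar j h0
        have h2 := ih (par j) h1 (by omega)
        have h3 : X (par j) ∈ A (n - j + 1) :=
          chain_sub h (i := n - j + 1) (j := n - par j) (by omega) (by omega) h2
        rw [hXs j h0, show n + 1 - j = n - j + 1 by omega]
        exact (h.cover (n - j) (by omega)).mem _ h3
  -- the relation between two nodes
  have hrel : ∀ i j, i < j → j ≤ n → X j ≠ X i ∧ (G.Adj (X j) (X i) ↔ par j = i) := by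
    intro i j hij hj
    have h0 : 1 ≤ j := by omega
    have h1 := hpar j h0
    have hcov := h.cover (n - j) (by omega)
    have hp : X (par j) ∈ A (n - j + 1) :=
      chain_sub h (i := n - j + 1) (j := n - par j) (by omega) (by omega) (hXm _ (by omega))
    have hi : X i ∈ A (n - j + 1) :=
      chain_sub h (i := n - j + 1) (j := n - i) (by omega) (by omega) (hXm _ (by omega))
    have hXj : X j = x (n - j + 1) (X (par j)) := by
      rw [hXs j h0, show n + 1 - j = n - j + 1 by omega]
    refine ⟨?_, ?_, ?_⟩
    · rw [hXj]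
      exact hcov.out _ hp _ hi
    · intro hadj
      by_contra hne
      rw [hXj] at hadj
      have h2 := hcov.exact _ hp _ hi hadj
      refine key h n le_rfl (n - j + 1) (by omega) (by omega) (wd par n (par j)) (wd par n i)
        (word_mono (wd_word hpar n (par j) (by omega)) (by omega))
        (word_mono (wd_word hpar n i (by omega)) (by omega)) ?_ b hb h2
      intro h3
      exact hne (wd_last hpar (by omega) (by omega) h3)
    · intro hpe
      rw [hXj, ← hpe]
      exact hcov.adj _ hp
  refine ⟨⟨⟨fun j => X j.1, ?_⟩, ?_⟩⟩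
  · intro i j hij
    simp only at hij
    rcases Nat.lt_trichotomy i.1 j.1 with h1 | h1 | h1
    · exact absurd hij.symm (hrel _ _ h1 (by omega)).1
    · exact Fin.ext h1
    · exact absurd hij (hrel _ _ h1 (by omega)).1
  · intro i j
    show G.Adj (X i.1) (X j.1) ↔ (i.1 < j.1 ∧ par j.1 = i.1) ∨ (j.1 < i.1 ∧ par i.1 = j.1)
    rcases Nat.lt_trichotomy i.1 j.1 with h1 | h1 | h1
    · rw [G.adj_comm, (hrel _ _ h1 (by omega)).2]
      constructor
      · exact fun h2 => Or.inl ⟨h1, h2⟩
      · rintro (⟨_, h2⟩ | ⟨h2, _⟩)
        · exact h2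
        · omega
    · constructor
      · intro h2
        rw [h1] at h2
        exact absurd h2 (G.loopless.irrefl _)
      · rintro (⟨h2, _⟩ | ⟨h2, _⟩) <;> omega
    · rw [(hrel _ _ h1 (by omega)).2]
      constructor
      · exact fun h2 => Or.inr ⟨h1, h2⟩
      · rintro (⟨h2, _⟩ | ⟨_, h2⟩)
        · omega
        · exact h2

end Pool.Agent.Lib.GSR3
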