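import Pool.Agent.Lib.GSR3.Stmts
import Pool.Agent.Lib.GSR3.Base

/-!
# A random exact cover
-/

set_option autoImplicit false

namespace Pool.Agent.Lib.GSR3

open Finset Classical
open Pool.Agent.Lib.FracGS (nb wnb bern mem_nb bern_nonneg sum_bern sum_bern_filter)

lemma one_sub_sum_le_prod {ι : Type} (s : Finset ι) (p : ι → ℝ) (h0 : ∀ i, 0 ≤ p i)
    (h1 : ∀ i, p i ≤ 1) : 1 - ∑ i ∈ s, p i ≤ ∏ i ∈ s, (1 - p i) ∧
      ∏ i ∈ s, (1 - p i) ≤ 1 ∧ 0 ≤ ∏ i ∈ s, (1 - p i) := by
  induction s using Finset.induction_on with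
  | empty => simp
  | insert a s ha ih =>
    rw [Finset.sum_insert ha, Finset.prod_insert ha]
    obtain ⟨i1, i2, i3⟩ := ih
    have ha0 := h0 a
    have ha1 := h1 a
    refine ⟨?_, ?_, ?_⟩
    · nlinarith
    · nlinarith
    · exact mul_nonneg (by linarith) i3

/-- The part of `U` covered exactly once by `Z`. -/
noncomputable def once {V : Type} (G : SimpleGraph V) (U Z : Finset V) : Finset V :=
  U.filter (fun u => u ∉ Z ∧ ∃ x ∈ U, x ∈ Z ∧ G.Adj x u ∧ ∀ z ∈ U, z ∈ Z → G.Adj z u → z = x)

lemma mem_once {V : Type} (G : SimpleGraph V) (U Z : Finset V) (u : V) :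
    u ∈ once G U Z ↔ u ∈ U ∧ (u ∉ Z ∧ ∃ x ∈ U, x ∈ Z ∧ G.Adj x u ∧
      ∀ z ∈ U, z ∈ Z → G.Adj z u → z = x) := by
  unfold once
  rw [Finset.mem_filter]

lemma once_cover {V : Type} (G : SimpleGraph V) (U Z : Finset V) :
    ∃ x : V → V, ExactCover G U (once G U Z) x := by
  have h : ∀ u, ∃ x, u ∈ once G U Z →
      (x ∈ U ∧ x ∈ Z ∧ G.Adj x u ∧ ∀ z ∈ U, z ∈ Z → G.Adj z u → z = x) := by
    intro u
    by_cases hu : u ∈ once G U Z
    · obtain ⟨x, h1, h2⟩ := ((mem_once G U Z u).1 hu).2.2
      exact ⟨x, fun _ => ⟨h1, h2⟩⟩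
    · exact ⟨u, fun h => absurd h hu⟩
  choose x hx using h
  refine ⟨x, ⟨Finset.filter_subset _ _, fun a ha => (hx a ha).1, ?_, fun a ha => (hx a ha).2.2.1,
    ?_⟩⟩
  · intro a ha b hb hab
    have h1 := (hx a ha).2.1
    rw [hab] at h1
    exact ((mem_once G U Z b).1 hb).2.1 h1
  · intro a ha b hb hab
    exact (hx b hb).2.2.2 (x a) (hx a ha).1 (hx a ha).2.1 hab

theorem stSample : StSample := by
  intro V _ G U ν C0 c hC0 hc hν hνU hνle hwle hcov
  have hC : 0 < C0 := by linarith
  let p : V → ℝ := fun v => ν v / (4 * C0)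
  have hp0 : ∀ v, 0 ≤ p v := fun v => div_nonneg (hν v) (by linarith)
  have hp4 : ∀ v, p v ≤ 1 / 4 := by
    intro v
    show ν v / (4 * C0) ≤ 1 / 4
    rw [div_le_div_iff₀ (by linarith) (by norm_num)]
    linarith [hνle v]
  have hp1 : ∀ v, p v ≤ 1 := fun v => (hp4 v).trans (by norm_num)
  have hS : ∀ Z : Finset V, Small G (once G U Z) c := by
    intro Z
    obtain ⟨x, hx⟩ := once_cover G U Z
    exact hcov _ x hx
  have key : ∀ a ∈ U.filter (fun u => 1 / 4 ≤ wnb G U ν u), 1 / (32 * C0) ≤
      ∑ Z : Finset V, if a ∈ once G U Z then bern p Z else 0 := by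
    intro a ha
    obtain ⟨haU, haw⟩ := Finset.mem_filter.1 ha
    -- the events
    let W : V → Finset V := fun x => insert a ((nb G U a).erase x)
    have hsum : ∀ x ∈ nb G U a, p x / 2 ≤
        ∑ Z ∈ (Finset.univ : Finset (Finset V)).filter
          (fun Z => {x} ⊆ Z ∧ Disjoint (W x) Z), bern p Z := by
      intro x hx
      have hxa : x ≠ a := by
        rintro rfl
        exact G.loopless.irrefl _ (mem_nb.1 hx).2
      have hdis : Disjoint ({x} : Finset V) (W x) := by
        rw [Finset.disjoint_singleton_left]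
        simp [W, hxa]
      rw [sum_bern_filter p {x} (W x) hdis, Finset.prod_singleton]
      have h1 := (one_sub_sum_le_prod (W x) p hp0 hp1).1
      have h2 : ∑ i ∈ W x, p i ≤ 1 / 2 := by
        have h3 : ∑ i ∈ W x, p i ≤ p a + ∑ i ∈ (nb G U a).erase x, p i := by
          have hna : a ∉ (nb G U a).erase x := by
            intro h
            exact G.loopless.irrefl _ (mem_nb.1 (Finset.mem_of_mem_erase h)).2
          show ∑ i ∈ insert a ((nb G U a).erase x), p i ≤ _
          rw [Finset.sum_insert hna]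
        have h4 : ∑ i ∈ (nb G U a).erase x, p i ≤ ∑ i ∈ nb G U a, p i :=
          Finset.sum_le_sum_of_subset_of_nonneg (Finset.erase_subset _ _) fun i _ _ => hp0 i
        have h5 : ∑ i ∈ nb G U a, p i ≤ 1 / 4 := by
          show ∑ i ∈ nb G U a, ν i / (4 * C0) ≤ 1 / 4
          rw [← Finset.sum_div, div_le_div_iff₀ (by linarith) (by norm_num)]
          have := hwle a haU
          unfold wnb at this
          linarith
        linarith [hp4 a]
      nlinarith [hp0 x]
    have hpt : ∀ Z : Finset V, ∑ x ∈ nb G U a,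
        (if {x} ⊆ Z ∧ Disjoint (W x) Z then bern p Z else 0) ≤
          if a ∈ once G U Z then bern p Z else 0 := by
      intro Z
      have hb := bern_nonneg hp0 hp1 Z
      by_cases hex : ∃ x ∈ nb G U a, {x} ⊆ Z ∧ Disjoint (W x) Z
      · obtain ⟨x, hx, hxZ, hWZ⟩ := hex
        rw [Finset.singleton_subset_iff] at hxZ
        have huniq : ∀ z ∈ nb G U a, z ∈ Z → z = x := by
          intro z hz hzZ
          by_contra hne
          refine Finset.disjoint_left.1 hWZ ?_ hzZ
          exact Finset.mem_insert_of_mem (Finset.mem_erase.2 ⟨hne, hz⟩)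
        have hmem : a ∈ once G U Z := by
          refine (mem_once G U Z a).2 ⟨haU, fun haZ => ?_, x, (mem_nb.1 hx).1, hxZ,
            (mem_nb.1 hx).2.symm, fun z hzU hzZ hza => huniq z (mem_nb.2 ⟨hzU, hza.symm⟩) hzZ⟩
          exact Finset.disjoint_left.1 hWZ (Finset.mem_insert_self _ _) haZ
        rw [if_pos hmem]
        have : ∑ y ∈ nb G U a, (if {y} ⊆ Z ∧ Disjoint (W y) Z then bern p Z else 0) ≤
            ∑ y ∈ nb G U a, (if y = x then bern p Z else 0) := by
          refine Finset.sum_le_sum fun y hy => ?_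
          by_cases hyx : y = x
          · rw [if_pos hyx]
            split_ifs
            · exact le_rfl
            · exact hb
          · rw [if_neg hyx, if_neg]
            rintro ⟨h1, _⟩
            exact hyx (huniq y hy (Finset.singleton_subset_iff.1 h1))
        refine this.trans ?_
        rw [Finset.sum_ite_eq' (nb G U a) x, if_pos hx]
      · push Not at hex
        rw [Finset.sum_eq_zero]
        · split_ifs
          · exact hb
          · exact le_rfl
        · intro x hx
          rw [if_neg]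
          rintro ⟨h1, h2⟩
          exact hex x hx h1 h2
    calc 1 / (32 * C0) ≤ ∑ x ∈ nb G U a, p x / 2 := by
          show 1 / (32 * C0) ≤ ∑ x ∈ nb G U a, ν x / (4 * C0) / 2
          rw [← Finset.sum_div, ← Finset.sum_div, div_div, div_le_div_iff₀ (by linarith)
            (by linarith)]
          unfold wnb at haw
          nlinarith
      _ ≤ ∑ x ∈ nb G U a, ∑ Z ∈ (Finset.univ : Finset (Finset V)).filter
          (fun Z => {x} ⊆ Z ∧ Disjoint (W x) Z), bern p Z := Finset.sum_le_sum hsum
      _ = ∑ Z : Finset V, ∑ x ∈ nb G U a,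
          (if {x} ⊆ Z ∧ Disjoint (W x) Z then bern p Z else 0) := by
        rw [Finset.sum_comm]
        refine Finset.sum_congr rfl fun x _ => ?_
        rw [Finset.sum_filter]
      _ ≤ _ := Finset.sum_le_sum fun Z _ => hpt Z
  have hδ : 0 < 1 / (32 * C0) := by positivity
  have hres := small_of_average (G := G) (bern p) (bern_nonneg hp0 hp1) (sum_bern p).le
    (once G U) hδ hc hS key
  refine hres.mono_const ?_
  rw [div_div_eq_mul_div, div_one]
  nlinarith [mul_nonneg hc hC.le]

end Pool.Agent.Lib.GSR3
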