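import Pool.Agent.Lib.GSR3.Base
import Pool.Agent.Lib.GSR3.Stmts

/-!
# Induction on the clique number
-/

set_option autoImplicit false

namespace Pool.Agent.Lib.GSR3

open Finset Classical
open Pool.Agent.Lib.FracGS (nb wnb TAdj mem_nb nb_subset nb_mono)
open Pool.Agent.Lib.MP_763321_co (pat exists_pat)

/-- Small induced subgraphs. -/
lemma small_of_induce {V : Type} [Fintype V] (G : SimpleGraph V) (S : Finset V) (c : ℝ)
    (h : Small (G.induce {v | v ∈ S}) Finset.univ c) : Small G S c := by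
  intro w hw
  obtain ⟨I, -, hI, hle⟩ := h (fun v => w v.1) (fun v => hw v.1)
  refine ⟨I.map (Function.Embedding.subtype _), ?_, ?_, ?_⟩
  · intro v hv
    rw [Finset.mem_map] at hv
    obtain ⟨u, _, rfl⟩ := hv
    exact u.2
  · intro u hu v hv huv
    rw [Finset.mem_map] at hu hv
    obtain ⟨u', hu', rfl⟩ := hu
    obtain ⟨v', hv', rfl⟩ := hv
    exact hI u' hu' v' hv' huv
  · rw [Finset.sum_map]
    have h1 : ∑ v ∈ S, w v = ∑ v : {v // v ∈ S}, w v.1 := by
      rw [Finset.sum_coe_sort S w]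
    rw [h1]
    exact hle

/-- Neighbourhoods have a smaller clique number. -/
lemma cliqueFree_nb {V : Type} [Fintype V] (G : SimpleGraph V) (k : ℕ) (hG : G.CliqueFree (k + 1))
    (v : V) : (G.induce {u | u ∈ nb G Finset.univ v}).CliqueFree k := by
  intro t ht
  have h1 : G.IsNClique k (t.map (Function.Embedding.subtype _)) := by
    constructor
    · intro a ha b hb hab
      rw [Finset.mem_coe, Finset.mem_map] at ha hb
      obtain ⟨a', ha', rfl⟩ := ha
      obtain ⟨b', hb', rfl⟩ := hb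
      have hne : a' ≠ b' := fun h => hab (by rw [h])
      exact ht.1 (Finset.mem_coe.mpr ha') (Finset.mem_coe.mpr hb') hne
    · rw [Finset.card_map]
      exact ht.2
  refine hG _ (h1.insert (a := v) ?_)
  intro b hb
  rw [Finset.mem_map] at hb
  obtain ⟨b', _, rfl⟩ := hb
  exact (mem_nb.mp b'.2).2

theorem main (hC : StChain) (hE : StExact) (hW : StWords) (W : Type) [Fintype W]
    (T : SimpleGraph W) (r : W) (hT : T.IsTree) (hr : ∀ v, T.dist r v ≤ 3) (k : ℕ) :
    ∃ c : ℝ, 1 ≤ c ∧ ∀ (V : Type) [Fintype V] (G : SimpleGraph V), G.CliqueFree k →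
      IsEmpty (T ↪g G) → Small G Finset.univ c := by
  obtain ⟨M, f, hf1, hf2, hf3⟩ := hW W T r 3 hT hr
  obtain ⟨m, par, hm, hpar, ⟨ψ⟩⟩ := exists_pat (Fintype.card W) T hT.isAcyclic rfl
  induction k with
  | zero =>
    refine ⟨1, le_rfl, ?_⟩
    intro V _ G hG _
    exact absurd (by simp : G.IsNClique 0 ∅) (hG ∅)
  | succ k ih =>
    obtain ⟨c, hc, hind⟩ := ih
    obtain ⟨K, L, hK, hL, hex⟩ := hE M c hc
    obtain ⟨F, hF, hch⟩ := hC (m - 1) par c K L hpar (by linarith) hK hL
    refine ⟨max 1 F, le_max_left _ _, ?_⟩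
    intro V _ G hG hT'
    have hnb : ∀ v ∈ (Finset.univ : Finset V), Small G (nb G Finset.univ v) c := by
      intro v _
      refine small_of_induce G _ c (hind _ _ (cliqueFree_nb G k hG v) ?_)
      refine ⟨fun φ => hT'.false (φ.trans (SimpleGraph.Embedding.induce _))⟩
    have htree : ∀ φ : List (Fin M) → V, ¬ Tree G 3 M φ := by
      intro φ hφ
      refine hT'.false ⟨⟨fun v => φ (f v), fun u v huv => hf2 (hφ.inj _ _ (hf1 u) (hf1 v) huv)⟩, ?_⟩
      intro u v
      show G.Adj (φ (f u)) (φ (f v)) ↔ T.Adj u v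
      rw [hφ.adj _ _ (hf1 u) (hf1 v), hf3 u v]
    have hpat : IsEmpty (pat par (m - 1 + 1) ↪g G) := by
      rw [Nat.sub_add_cancel hm]
      exact ⟨fun φ => hT'.false (ψ.trans φ)⟩
    exact (hch V G Finset.univ hnb (hex V G Finset.univ hnb htree) hpat).mono_const
      (le_max_right _ _)

end Pool.Agent.Lib.GSR3
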