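import Pool.Agent.Lib.FracGS.Base

/-!
# Fractional Gyarfas-Sumner for trees of radius 3: definitions

All graphs are finite, all vertex sets are finsets.  `Small G A c` says that the fractional
chromatic number of `G[A]` is at most `c`, in the dual form.
-/

set_option autoImplicit false

namespace Pool.Agent.Lib.GSR3

open Finset Classical
open Pool.Agent.Lib.FracGS (nb wnb TAdj)

/-- `I` is a stable set. -/
def Stab {V : Type} (G : SimpleGraph V) (I : Finset V) : Prop :=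
  ∀ u ∈ I, ∀ v ∈ I, ¬ G.Adj u v

/-- The fractional chromatic number of `G[A]` is at most `c`: for all weights `w` there is a stable
subset `I` of `A` with `w(A) ≤ c w(I)`. -/
def Small {V : Type} (G : SimpleGraph V) (A : Finset V) (c : ℝ) : Prop :=
  ∀ w : V → ℝ, (∀ v, 0 ≤ w v) → ∃ I, I ⊆ A ∧ Stab G I ∧ ∑ v ∈ A, w v ≤ c * ∑ v ∈ I, w v

/-- `g = h` on `A`, or the ranges of `g` and `h` on `A` are disjoint. -/
def EqOrDisj {V : Type} (A : Finset V) (g h : V → V) : Prop :=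
  (∀ a ∈ A, g a = h a) ∨ (∀ a ∈ A, ∀ b ∈ A, g a ≠ h b)

/-- `g` is a proper colouring of `G[A]`. -/
def ProperOn {V : Type} (G : SimpleGraph V) (A : Finset V) (g : V → V) : Prop :=
  ∀ a ∈ A, ∀ b ∈ A, G.Adj a b → g a ≠ g b

/-- Inside `A`, the vertices `x a` (`a ∈ B`) form an exact cover of `B`: every `b ∈ B` has exactly
one neighbour in `x(B)`, namely `x b`. -/
structure ExactCover {V : Type} (G : SimpleGraph V) (A B : Finset V) (x : V → V) : Prop where
  sub : B ⊆ A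
  mem : ∀ a ∈ B, x a ∈ A
  out : ∀ a ∈ B, ∀ b ∈ B, x a ≠ b
  adj : ∀ a ∈ B, G.Adj (x a) a
  exact : ∀ a ∈ B, ∀ b ∈ B, G.Adj (x a) b → x a = x b

/-- If all the sets with an exact cover inside `A` are small, then `A` is small. -/
def HasExact {V : Type} (G : SimpleGraph V) (U : Finset V) (K L : ℝ) : Prop :=
  ∀ A, A ⊆ U → ∀ c : ℝ, 0 ≤ c → (∀ B x, ExactCover G A B x → Small G B c) →
    Small G A (K + L * c)

/-- Composition along a word: the head of the list is applied first. -/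
def app {V : Type} (x : ℕ → V → V) : List ℕ → V → V
  | [], b => b
  | m :: z, b => app x z (x m b)

/-- Words: strictly decreasing lists with entries in `(l, i]`. -/
def Word (l i : ℕ) (v : List ℕ) : Prop :=
  v.Pairwise (fun a b => b < a) ∧ ∀ m ∈ v, l < m ∧ m ≤ i

/-- An exact chain `A 0 ⊇ A 1 ⊇ ... ⊇ A n` with the functions `x 1, ..., x n`. -/
structure IsChain {V : Type} (G : SimpleGraph V) (x : ℕ → V → V) (A : ℕ → Finset V) (n : ℕ) :
    Prop where
  cover : ∀ i < n, ExactCover G (A i) (A (i + 1)) (x (i + 1))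
  proper : ∀ i < n, ProperOn G (A (i + 1)) (x (i + 1))
  sep : ∀ i ≤ n, ∀ l, 1 ≤ l → l ≤ i → ∀ v w, Word l i v → Word l i w →
    EqOrDisj (A i) (fun b => x l (app x v b)) (fun b => x l (app x w b))

/-- `φ` is an induced copy of the `M`-ary tree of depth `d` (the parent of the word `t :: w`
is `w`). -/
structure Tree {V : Type} (G : SimpleGraph V) (d M : ℕ) (φ : List (Fin M) → V) : Prop where
  inj : ∀ u w : List (Fin M), u.length ≤ d → w.length ≤ d → φ u = φ w → u = w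
  adj : ∀ u w : List (Fin M), u.length ≤ d → w.length ≤ d → (G.Adj (φ u) (φ w) ↔ TAdj u w)

/-- The optimal solutions of the (penalised) linear program, everything inside `U`. -/
structure LPSol {V : Type} [Fintype V] (G : SimpleGraph V) (U : Finset V) (ρ : ℝ)
    (y ν Lam : V → ℝ) (lam : Finset V → ℝ) : Prop where
  y0 : ∀ v, 0 ≤ y v
  yU : ∀ v, v ∉ U → y v = 0
  ν0 : ∀ v, 0 ≤ ν v
  νU : ∀ v, v ∉ U → ν v = 0
  lam0 : ∀ I, 0 ≤ lam I
  lamU : ∀ I, lam I ≠ 0 → I ⊆ U
  lamS : ∀ I, lam I ≠ 0 → Stab G I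
  lamM : ∀ I, lam I ≠ 0 → ∀ J, J ⊆ U → Stab G J → ∑ v ∈ J, y v ≤ ∑ v ∈ I, y v
  lamT : ∑ I, lam I = ρ
  LamD : ∀ v, Lam v = ∑ I : Finset V, if v ∈ I then lam I else 0
  light : ∀ x ∈ U, wnb G U y x ≤ 1
  tight : ∀ x, ν x ≠ 0 → wnb G U y x = 1
  cs : ∀ u, y u ≠ 0 → wnb G U ν u + Lam u ≤ 1
  cov : ∀ u ∈ U, 1 - y u / 2 ≤ wnb G U ν u + Lam u
  ne : ∃ u, y u ≠ 0

end Pool.Agent.Lib.GSR3
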